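import Pool.Agent.Helper16.VW.NoiseF

/-! Theorem VW, (ADD) in the exact calculus. Two states `z1`, `z2` of the same law joined by two moves with one
carrier: `z2 = z1 + c (g C - ψ T')`; then `ψ` is a function of `g`. -/

set_option autoImplicit false

namespace Pool.Agent.Helper16.VW

open Filter Topology Pool.Agent.Helper69.RK
open Pool.Agent.Helper31.EC QS Sp Pool.Agent.Helper38.NS

noncomputable section

section PMs

variable {L : Type*} [PM L]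

/-- two copies over `(B, Zq, g)`, each of them independent of `Zq`: jointly independent of `Zq` -/
theorem ind_cc {B Zq g a b : L} (ga : g ≤ B ⊔ a) (gb : g ≤ B ⊔ b) (h1 : I Zq a B = 0) (h2 : I Zq b B = 0)
    (h3 : I a b (B ⊔ g ⊔ Zq) = 0) : I Zq (a ⊔ b) B = 0 := by
  have e1 : I b Zq (B ⊔ g) = 0 := ind_symm (ind_of h2 le_sup_left (by order) le_sup_left (by order))
  have e2 : I b (Zq ⊔ a) (B ⊔ g) = 0 := by
    apply I_contract e1
    rw [sup_comm Zq]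
    exact ind_symm h3
  have e3 : I Zq b (B ⊔ a) = 0 := by
    have f1 : I b (a ⊔ Zq) (B ⊔ g) = 0 := by rwa [sup_comm a]
    have f2 := (I_decomp f1).2
    have f3 : a ⊔ (B ⊔ g) = B ⊔ a := le_antisymm (by order) (by order)
    rw [f3] at f2
    exact ind_symm f2
  apply I_contract h1
  rw [sup_comm a]
  exact e3

end PMs

variable {S : Sp} {ν ι : Type} [Fintype ν] [Fintype ι]

/-- two states of one law joined by two moves with one carrier `(T', C)`; `X` contains the moves -/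
structure Two (S : Sp) {ν ι : Type} [Fintype ν] [Fintype ι] (c : QS S) (f : ι → QS S) (X : S.L)
    (z1 z2 : ν → QS S) (g T' : QS S) (ψ C : ν → QS S) : Prop where
  hc : c = 1 ∨ c = -1
  e : ∀ i, z2 i = z1 i + c * (g * C i - ψ i * T')
  gX : dg g 1 ≤ vd f 1 ⊔ X
  pX : vd ψ 1 ≤ vd f 1 ⊔ X
  iX : I (vd z2 1 ⊔ (dg T' 1 ⊔ vd C 1)) X (vd f 1) = 0
  iz : I (vd z2 1) (dg T' 1 ⊔ vd C 1) (vd f 1) = 0
  eh : Helper31.EC.h (vd z1 1) (vd f 1) ≤ Helper31.EC.h (vd z2 1) (vd f 1)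
  rT : Helper31.EC.h (dg T' 1) (vd f 1) = 1

theorem dg_sign {c : QS S} (hc : c = 1 ∨ c = -1) (A : S.L) : dg c 1 ≤ A := by
  rcases hc with h | h
  · rw [h]; exact (Kn S 1 le_rfl A).one_mem
  · rw [h]; exact (Kn S 1 le_rfl A).neg_mem (Kn S 1 le_rfl A).one_mem

theorem qs_sign {T : Sp} (p : Pj T S) {c : QS S} (hc : c = 1 ∨ c = -1) :
    p.qs c = 1 ∨ p.qs c = -1 := by
  rcases hc with h | h
  · left; rw [h, map_one]
  · right; rw [h, map_neg, map_one]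

/-- a state and the carrier, given the moves -/
theorem Two.ind1 {c : QS S} {f : ι → QS S} {Y : S.L} {z1 z2 : ν → QS S} {g T' : QS S} {ψ C : ν → QS S}
    (hc : c = 1 ∨ c = -1) (e : ∀ i, z2 i = z1 i + c * (g * C i - ψ i * T'))
    (gX : dg g 1 ≤ vd f 1 ⊔ Y) (pX : vd ψ 1 ≤ vd f 1 ⊔ Y)
    (iX : I (vd z2 1 ⊔ (dg T' 1 ⊔ vd C 1)) Y (vd f 1) = 0)
    (iz : I (vd z2 1) (dg T' 1 ⊔ vd C 1) (vd f 1) = 0)
    (eh : Helper31.EC.h (vd z1 1) (vd f 1) ≤ Helper31.EC.h (vd z2 1) (vd f 1)) :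
    I (vd z1 1) (Y ⊔ (dg T' 1 ⊔ vd C 1)) (vd f 1) = 0 := by
  obtain ⟨Q, hQ⟩ : ∃ Q, Q = dg T' 1 ⊔ vd C 1 := ⟨_, rfl⟩
  obtain ⟨B, hB⟩ : ∃ B, B = vd f 1 := ⟨_, rfl⟩
  have hcC : ∀ i, dg (c * (g * C i - ψ i * T')) 1 ≤ Y ⊔ Q ⊔ B := by
    intro i
    have d1 : dg c 1 ≤ Y ⊔ Q ⊔ B := dg_sign hc _
    have d2 : dg g 1 ≤ Y ⊔ Q ⊔ B := gX.trans (by rw [hB]; order)
    have d3 : dg (C i) 1 ≤ Y ⊔ Q ⊔ B := (dg_le_vd C 1 i).trans (by rw [hQ]; order)
    have d4 : dg (ψ i) 1 ≤ Y ⊔ Q ⊔ B := ((dg_le_vd ψ 1 i).trans pX).trans (by rw [hB]; order)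
    have d5 : dg T' 1 ≤ Y ⊔ Q ⊔ B := by rw [hQ]; order
    exact (Kn S 1 le_rfl _).mul_mem d1 ((Kn S 1 le_rfl _).sub_mem ((Kn S 1 le_rfl _).mul_mem d2 d3)
      ((Kn S 1 le_rfl _).mul_mem d4 d5))
  have h1 : vd z1 1 ≤ vd z2 1 ⊔ (Y ⊔ Q ⊔ B) := by
    rw [vd_le]
    intro i
    have e1 : z1 i = z2 i - c * (g * C i - ψ i * T') := by rw [e i]; ring
    rw [e1]
    exact (dg_sub_le _ _ le_rfl).trans (sup_le ((dg_le_vd z2 1 i).trans le_sup_left)
      ((hcC i).trans le_sup_right))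
  have h2 : vd z2 1 ≤ vd z1 1 ⊔ (Y ⊔ Q ⊔ B) := by
    rw [vd_le]
    intro i
    rw [e i]
    exact (dg_add_le _ _ le_rfl).trans (sup_le ((dg_le_vd z1 1 i).trans le_sup_left)
      ((hcC i).trans le_sup_right))
  rw [← hQ, ← hB]
  rw [← hQ, ← hB] at iX iz
  rw [← hB] at eh
  apply ind_of_h
  have h3 : Helper31.EC.h (vd z1 1) (Y ⊔ Q ⊔ B) = Helper31.EC.h (vd z2 1) (Y ⊔ Q ⊔ B) := h_congr_left h1 h2
  have h4 : I (vd z2 1) (Y ⊔ Q) B = 0 := by
    have e1 : I Y (vd z2 1) (Q ⊔ B) = 0 := by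
      have e2 : I Y (Q ⊔ vd z2 1) B = 0 := by
        rw [sup_comm Q]; exact ind_symm iX
      exact (I_decomp e2).2
    have e3 := I_contract iz (ind_symm e1)
    rwa [sup_comm Q] at e3
  rw [I_zero_iff_h] at h4
  rw [h3, h4]
  exact eh

/-- **(ADD)** -/
theorem Two.add {c : QS S} {f : ι → QS S} {X : S.L} {z1 z2 : ν → QS S} {g T' : QS S} {ψ C : ν → QS S} {ρ : ℝ}
    (hu : UQi S z1 (vd f 1) ρ) (hρ : 0 < ρ) (hb : Two S c f X z1 z2 g T' ψ C) : vd ψ 1 ≤ dg g 1 ⊔ vd f 1 := by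
  obtain ⟨D, r1, r2, c1, c2, c3⟩ := exists_copyS (Sum.elim f (Sum.elim z2 (Sum.elim C
    (Sum.elim (fun _ : Unit => T') (fun _ : Unit => g)))))
  have cf : ∀ i, r1.qs (f i) = r2.qs (f i) := fun i => c1 (Sum.inl i)
  have cz : ∀ i, r1.qs (z2 i) = r2.qs (z2 i) := fun i => c1 (Sum.inr (Sum.inl i))
  have cC : ∀ i, r1.qs (C i) = r2.qs (C i) := fun i => c1 (Sum.inr (Sum.inr (Sum.inl i)))
  have cT : r1.qs T' = r2.qs T' := c1 (Sum.inr (Sum.inr (Sum.inr (Sum.inl ()))))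
  have cg : r1.qs g = r2.qs g := c1 (Sum.inr (Sum.inr (Sum.inr (Sum.inr ()))))
  have cc : r1.qs c = r2.qs c := by
    rcases hb.hc with h | h
    · rw [h, map_one, map_one]
    · rw [h, map_neg, map_neg, map_one, map_one]
  rw [vd_sum, vd_sum, vd_sum, vd_sum, vd_unit, vd_unit] at c2
  obtain ⟨B, hB⟩ : ∃ B, B = vd f 1 := ⟨_, rfl⟩
  obtain ⟨Q, hQ⟩ : ∃ Q, Q = dg T' 1 ⊔ vd C 1 := ⟨_, rfl⟩
  obtain ⟨G, hG⟩ : ∃ G, G = B ⊔ dg g 1 ⊔ (vd z2 1 ⊔ Q) := ⟨_, rfl⟩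
  have hGe : vd f 1 ⊔ (vd z2 1 ⊔ (vd C 1 ⊔ (dg T' 1 ⊔ dg g 1))) = G := by
    rw [hG, hB, hQ]
    order
  rw [hGe] at c2
  have eB : r1.map B = r2.map B := by
    rw [hB, ← r1.qs_vd, ← r2.qs_vd]
    exact vd_congr cf 1
  have ez : r1.map (vd z2 1) = r2.map (vd z2 1) := by
    rw [← r1.qs_vd, ← r2.qs_vd]
    exact vd_congr cz 1
  have eQ : r1.map Q = r2.map Q := by
    rw [hQ, r1.map_sup, r2.map_sup, ← r1.qs_dg, ← r2.qs_dg, ← r1.qs_vd, ← r2.qs_vd, cT, vd_congr cC 1]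
  have eg : r1.map (dg g 1) = r2.map (dg g 1) := by
    rw [← r1.qs_dg, ← r2.qs_dg, cg]
  have hX := hb.iX
  rw [← hQ, ← hB] at hX
  have gX := hb.gX
  have pX := hb.pX
  rw [← hB] at gX pX
  -- joint independence
  have k1 : I (r1.map (vd z2 1 ⊔ Q)) (r1.map X ⊔ r2.map X) (r1.map B) = 0 := by
    apply ind_cc (g := r1.map (dg g 1))
    · rw [← r1.map_sup]; exact r1.map_mono gX
    · rw [eg, eB, ← r2.map_sup]; exact r2.map_mono gX
    · rw [r1.I_map]; exact hX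
    · rw [r1.map_sup, ez, eQ, ← r2.map_sup, eB, r2.I_map]; exact hX
    · rw [← r1.map_sup, ← r1.map_sup, ← hG]
      exact c2 X X
  -- the first state is independent of the moves and of the carrier
  have hf1 : vd (fun i => r1.qs (f i)) 1 = r1.map B := by rw [r1.qs_vd, hB]
  have k2 : ∀ (r : Pj D S), (∀ i, r.qs (z2 i) = r1.qs (z2 i)) → (∀ i, r.qs (C i) = r1.qs (C i)) → r.qs T' = r1.qs T' →
      (∀ i, r.qs (f i) = r1.qs (f i)) → r.map X ≤ r1.map X ⊔ r2.map X →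
      I (vd (fun i => r.qs (z1 i)) 1) ((r1.map X ⊔ r2.map X) ⊔ r1.map Q) (r1.map B) = 0 := by
    intro r rz rC rT rf rX
    have rB : r.map B = r1.map B := by
      rw [hB, ← r.qs_vd, ← r1.qs_vd]
      exact vd_congr rf 1
    have h1 := Two.ind1 (S := D) (c := r.qs c) (f := fun i => r1.qs (f i)) (Y := r1.map X ⊔ r2.map X)
      (z1 := fun i => r.qs (z1 i)) (z2 := fun i => r1.qs (z2 i)) (g := r.qs g) (T' := r1.qs T')
      (ψ := fun i => r.qs (ψ i)) (C := fun i => r1.qs (C i)) (qs_sign r hb.hc) ?_ ?_ ?_ ?_ ?_ ?_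
    · rw [hf1, r1.qs_dg, r1.qs_vd, ← r1.map_sup, ← hQ] at h1
      exact h1
    · intro i
      have h2 := congrArg r.qs (hb.e i)
      rw [map_add, map_mul, map_sub, map_mul, map_mul, rz, rC, rT] at h2
      exact h2
    · rw [hf1, r.qs_dg, ← rB]
      refine (r.map_mono gX).trans ?_
      rw [r.map_sup]
      exact sup_le_sup_left rX _
    · rw [hf1, r.qs_vd, ← rB]
      refine (r.map_mono pX).trans ?_
      rw [r.map_sup]
      exact sup_le_sup_left rX _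
    · rw [hf1, r1.qs_vd, r1.qs_dg, r1.qs_vd, ← r1.map_sup, ← r1.map_sup, ← hQ]
      exact k1
    · rw [hf1, r1.qs_vd, r1.qs_dg, r1.qs_vd, ← r1.map_sup, ← hQ, r1.I_map, hB, hQ]
      exact hb.iz
    · rw [hf1, r1.qs_vd, r.qs_vd, r1.h_map, ← rB, r.h_map, hB]
      exact hb.eh
  have k3 := k2 r1 (fun _ => rfl) (fun _ => rfl) rfl (fun _ => rfl) le_sup_left
  have k4 := k2 r2 (fun i => (cz i).symm) (fun i => (cC i).symm) cT.symm (fun i => (cf i).symm) le_sup_right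
  -- the noise
  have hs : ∀ i, r1.qs c * (r1.qs (ψ i) - r2.qs (ψ i)) ∈ Id D (1 - 0) := by
    apply noiseF (hu.pull r1) hρ (z0 := fun i => r2.qs (z1 i)) (τ := r1.qs T') le_rfl zero_le_one
    · intro i
      have h1 := congrArg r1.qs (hb.e i)
      have h2 := congrArg r2.qs (hb.e i)
      rw [map_add, map_mul, map_sub, map_mul, map_mul] at h1 h2
      rw [← cz, ← cC, ← cT, ← cc, ← cg] at h2
      have h3 : r1.qs (z1 i) = r1.qs (z2 i) - r1.qs c * (r1.qs g * r1.qs (C i) - r1.qs (ψ i) * r1.qs T') := by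
        rw [h1]; ring
      have h4 : r2.qs (z1 i) = r1.qs (z2 i) - r1.qs c * (r1.qs g * r1.qs (C i) - r2.qs (ψ i) * r1.qs T') := by
        rw [h2]; ring
      rw [h3, h4]
      ring
    · rw [← hB]
      refine I_zero_mono k3 le_sup_left ?_
      rw [vd_le]
      intro i
      have d1 : dg (r1.qs c) 1 ≤ (r1.map X ⊔ r2.map X) ⊔ r1.map Q ⊔ r1.map B := dg_sign (qs_sign r1 hb.hc) _
      have d2 : dg (r1.qs (ψ i)) 1 ≤ (r1.map X ⊔ r2.map X) ⊔ r1.map Q ⊔ r1.map B := by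
        rw [r1.qs_dg]
        have := r1.map_mono ((dg_le_vd ψ 1 i).trans pX)
        rw [r1.map_sup] at this
        order
      have d3 : dg (r2.qs (ψ i)) 1 ≤ (r1.map X ⊔ r2.map X) ⊔ r1.map Q ⊔ r1.map B := by
        rw [r2.qs_dg]
        have := r2.map_mono ((dg_le_vd ψ 1 i).trans pX)
        rw [r2.map_sup, ← eB] at this
        order
      exact (Kn D 1 le_rfl _).mul_mem d1 ((Kn D 1 le_rfl _).sub_mem d2 d3)
    · exact mem_Id_nonpos le_rfl
    · rw [sub_zero, ← hB]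
      have hsX : vd (fun i => r1.qs c * (r1.qs (ψ i) - r2.qs (ψ i))) 1 ≤ r1.map X ⊔ r2.map X ⊔ r1.map B := by
        rw [vd_le]
        intro i
        have d1 : dg (r1.qs c) 1 ≤ r1.map X ⊔ r2.map X ⊔ r1.map B := dg_sign (qs_sign r1 hb.hc) _
        have d2 : dg (r1.qs (ψ i)) 1 ≤ r1.map X ⊔ r2.map X ⊔ r1.map B := by
          rw [r1.qs_dg]
          have := r1.map_mono ((dg_le_vd ψ 1 i).trans pX)
          rw [r1.map_sup] at this
          order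
        have d3 : dg (r2.qs (ψ i)) 1 ≤ r1.map X ⊔ r2.map X ⊔ r1.map B := by
          rw [r2.qs_dg]
          have := r2.map_mono ((dg_le_vd ψ 1 i).trans pX)
          rw [r2.map_sup, ← eB] at this
          order
        exact (Kn D 1 le_rfl _).mul_mem d1 ((Kn D 1 le_rfl _).sub_mem d2 d3)
      have m1 : I (vd (fun i => r2.qs (z1 i)) 1) (r1.map Q) ((r1.map X ⊔ r2.map X) ⊔ r1.map B) = 0 :=
        (I_decomp k4).2
      have m2 : I (r1.map (dg T' 1)) (r1.map X ⊔ r2.map X) (r1.map B) = 0 := by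
        refine I_zero_mono k1 ?_ le_sup_left
        refine le_trans (r1.map_mono ?_) le_sup_left
        rw [hQ]
        order
      have m3 : Helper31.EC.h (r1.map (dg T' 1)) ((r1.map X ⊔ r2.map X) ⊔ r1.map B) = 1 := by
        rw [I_zero_iff_h.mp m2, r1.h_map, hB]
        exact hb.rT
      have m4 : I (r1.map (dg T' 1)) (vd (fun i => r2.qs (z1 i)) 1) ((r1.map X ⊔ r2.map X) ⊔ r1.map B) = 0 := by
        refine ind_symm (I_zero_mono m1 le_sup_left ?_)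
        refine le_trans (r1.map_mono ?_) le_sup_left
        rw [hQ]
        exact le_sup_left
      have m5 := I_zero_iff_h.mp m4
      rw [m3] at m5
      rw [r1.qs_dg]
      apply le_antisymm
      · rw [← r1.qs_dg]
        exact (h_le_H _ _).trans (H_dg_le _ zero_le_one)
      · refine le_trans (le_of_eq m5.symm) (h_anti ?_)
        order
  -- the copies agree
  have hψ : ∀ i, r1.qs (ψ i) = r2.qs (ψ i) := by
    intro i
    have h1 := hs i
    rw [sub_zero, mem_Id_one] at h1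
    have h2 : r1.qs c * (r1.qs c * (r1.qs (ψ i) - r2.qs (ψ i))) = r1.qs (ψ i) - r2.qs (ψ i) := by
      rcases qs_sign r1 hb.hc with h | h
      · rw [h]; ring
      · rw [h]; ring
    rw [h1, mul_zero] at h2
    exact sub_eq_zero.mp h2.symm
  have eψ : r1.map (vd ψ 1) = r2.map (vd ψ 1) := by
    rw [← r1.qs_vd, ← r2.qs_vd]
    exact vd_congr hψ 1
  have n1 : r1.map (vd ψ 1) ≤ r1.map G := by
    have h1 := c2 (vd ψ 1) (vd ψ 1)
    rw [← eψ] at h1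
    exact le_of_I_zero le_sup_left h1
  have n2 : vd ψ 1 ≤ G := by
    have h1 : Helper31.EC.h (r1.map (vd ψ 1)) (r1.map G) = 0 := h_zero n1
    rw [r1.h_map] at h1
    exact h_eq_zero_iff.mp h1
  -- remove the state and the carrier
  have n3 : I (vd z2 1 ⊔ Q) (vd ψ 1) (B ⊔ dg g 1) = 0 :=
    ind_of hX le_sup_left (by order) le_sup_left (by order)
  have n4 : vd ψ 1 ≤ (vd z2 1 ⊔ Q) ⊔ (B ⊔ dg g 1) := by rw [hG] at n2; order
  have n5 := le_of_I_zero n4 (ind_symm n3)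
  rw [← hB]
  order

end

end Pool.Agent.Helper16.VW
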