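import Pool.Agent.Helper16.VW.Add

/-! Theorem VW, row [S1]: two elements of one star `(f, z3, T', C)`, in the exact calculus: (ADD), (LIP), counts. -/

set_option autoImplicit false

namespace Pool.Agent.Helper16.VW

open Filter Topology Pool.Agent.Helper69.RK
open Pool.Agent.Helper31.EC QS Sp Pool.Agent.Helper38.NS
open Pool.Agent.Helper70.FW (Blk)

noncomputable section

section PMs

variable {L : Type*} [PM L]

/-- two elements of a star, in one cell `x` -/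
theorem ind_star {B x P1 P2 Z : L} (hx : x ≤ B ⊔ P2) (h1 : I Z P2 B = 0)
    (h2 : I P1 (P2 ⊔ Z) (B ⊔ x) = 0) : I Z (P1 ⊔ P2) B = 0 := by
  have e1 := (I_decomp h2).2
  have e2 : P2 ⊔ (B ⊔ x) = P2 ⊔ B := le_antisymm (by order) (by order)
  rw [e2] at e1
  rw [sup_comm P1]
  exact I_contract h1 (ind_symm e1)

end PMs

variable {S : Sp} {ν ι : Type} [Fintype ν] [Fintype ι]

/-- the left star -/
def lst (f : ι → QS S) (z3 : ν → QS S) (T' : QS S) (C : ν → QS S) : S.L := vd f 1 ⊔ vd z3 1 ⊔ (dg T' 1 ⊔ vd C 1)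

/-- the state and the right variable are independent of the left variable -/
theorem Blk_ind' {c : QS S} {f : ι → QS S} {z z3 : ν → QS S} {T T' : QS S} {A C : ν → QS S}
    (hb : Blk S c f z z3 T T' A C) : I (vd z 1 ⊔ (dg T' 1 ⊔ vd C 1)) (dg T 1 ⊔ vd A 1) (vd f 1) = 0 := by
  have h1 := hb.i1
  rw [sup_comm (dg T 1 ⊔ vd A 1)] at h1
  have h2 := (I_decomp h1).2
  have h3 := ind_symm h2
  have h4 := I_contract hb.i3 (D := vd z 1) h3
  rw [sup_comm (dg T' 1 ⊔ vd C 1)] at h4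
  exact ind_symm h4

/-- two elements of one star: two copies over an information between the star and the star with the variable `T` to the
level `l` -/
structure Cps (D S : Sp) {ν ι : Type} [Fintype ν] [Fintype ι] (p1 p2 : Pj D S) (f : ι → QS S) (z3 : ν → QS S)
    (T T' : QS S) (C : ν → QS S) (l : ℝ) : Prop where
  cf : ∀ i, p1.qs (f i) = p2.qs (f i)
  cz : ∀ i, p1.qs (z3 i) = p2.qs (z3 i)
  cC : ∀ i, p1.qs (C i) = p2.qs (C i)
  cT' : p1.qs T' = p2.qs T'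
  cT : p1.map (dg T l) = p2.map (dg T l)
  ml : p1.qs T - p2.qs T ∈ Id D l
  ci : ∀ x y, I (p1.map x) (p2.map y) (p1.map (lst f z3 T' C ⊔ dg T l)) = 0

namespace Cps

variable {D : Sp} {p1 p2 : Pj D S} {c : QS S} {f : ι → QS S} {z z3 : ν → QS S} {T T' : QS S} {A C : ν → QS S}
  {l ρ : ℝ}

theorem eB (hc : Cps D S p1 p2 f z3 T T' C l) : p1.map (vd f 1) = p2.map (vd f 1) := by
  rw [← p1.qs_vd, ← p2.qs_vd]
  exact vd_congr hc.cf 1

theorem eQ (hc : Cps D S p1 p2 f z3 T T' C l) :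
    p1.map (dg T' 1 ⊔ vd C 1) = p2.map (dg T' 1 ⊔ vd C 1) := by
  rw [p1.map_sup, p2.map_sup, ← p1.qs_dg, ← p2.qs_dg, ← p1.qs_vd, ← p2.qs_vd, hc.cT', vd_congr hc.cC 1]

theorem ez3 (hc : Cps D S p1 p2 f z3 T T' C l) : p1.map (vd z3 1) = p2.map (vd z3 1) := by
  rw [← p1.qs_vd, ← p2.qs_vd]
  exact vd_congr hc.cz 1

theorem eW (hc : Cps D S p1 p2 f z3 T T' C l) : p1.map (lst f z3 T' C) = p2.map (lst f z3 T' C) := by
  unfold lst
  rw [p1.map_sup, p1.map_sup (vd f 1), p2.map_sup, p2.map_sup (vd f 1), hc.eB, hc.ez3, hc.eQ]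

theorem symm (hc : Cps D S p1 p2 f z3 T T' C l) : Cps D S p2 p1 f z3 T T' C l where
  cf := fun i => (hc.cf i).symm
  cz := fun i => (hc.cz i).symm
  cC := fun i => (hc.cC i).symm
  cT' := hc.cT'.symm
  cT := hc.cT.symm
  ml := by
    have h1 := (Id D l).neg_mem hc.ml
    rwa [neg_sub] at h1
  ci := by
    intro x y
    have h1 := hc.ci y x
    rw [p2.map_sup, ← hc.eW, ← hc.cT, ← p1.map_sup]
    exact ind_symm h1

/-- the second element with its state and the carrier is independent of the first element, up to the cell -/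
theorem ind_left (hl : l ≤ 1) (hb : Blk S c f z z3 T T' A C) (hc : Cps D S p1 p2 f z3 T T' C l) (y : S.L) :
    I (p1.map (dg T 1 ⊔ vd A 1)) (p2.map (y ⊔ lst f z3 T' C ⊔ dg T l)) (p1.map (vd f 1) ⊔ p1.map (dg T l)) = 0 := by
  obtain ⟨P, hP⟩ : ∃ P, P = dg T 1 ⊔ vd A 1 := ⟨_, rfl⟩
  rw [← hP]
  have hT : dg T l ≤ P := by rw [hP]; exact (dg_mono T hl).trans le_sup_left
  have h1 : I (dg T 1 ⊔ vd A 1) (lst f z3 T' C) (vd f 1) = 0 := by
    refine I_zero_mono hb.ind le_sup_left ?_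
    unfold lst
    order
  rw [← hP] at h1
  have h2 : I P (lst f z3 T' C) (vd f 1 ⊔ dg T l) = 0 :=
    ind_symm (ind_of (ind_symm h1) le_sup_left (by order) le_sup_left (by order))
  have h3 : I (p1.map P) (p1.map (lst f z3 T' C ⊔ dg T l)) (p1.map (vd f 1 ⊔ dg T l)) = 0 := by
    rw [p1.I_map]
    exact I_zero_mono h2 le_sup_left (by order)
  have h4 : I (p1.map P) (p2.map (y ⊔ lst f z3 T' C ⊔ dg T l)) (p1.map (lst f z3 T' C ⊔ dg T l) ⊔
      p1.map (vd f 1 ⊔ dg T l)) = 0 := by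
    have e1 : p1.map (lst f z3 T' C ⊔ dg T l) ⊔ p1.map (vd f 1 ⊔ dg T l) = p1.map (lst f z3 T' C ⊔ dg T l) := by
      rw [← p1.map_sup]
      congr 1
      unfold lst
      order
    rw [e1]
    exact hc.ci _ _
  have h5 := I_contract h3 h4
  rw [p1.map_sup (vd f 1)] at h5
  exact I_zero_mono h5 le_sup_left (by order)

theorem two_iX (hl : l ≤ 1) (hb : Blk S c f z z3 T T' A C) (hc : Cps D S p1 p2 f z3 T T' C l) :
    I (p2.map (vd z 1 ⊔ (dg T' 1 ⊔ vd C 1))) (p1.map (dg T 1 ⊔ vd A 1) ⊔ p2.map (dg T 1 ⊔ vd A 1))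
      (p2.map (vd f 1)) = 0 := by
  apply ind_star (x := p2.map (dg T l))
  · exact (p2.map_mono ((dg_mono T hl).trans (le_sup_left : dg T 1 ≤ dg T 1 ⊔ vd A 1))).trans le_sup_right
  · rw [p2.I_map]
    exact Blk_ind' hb
  · have h1 := hc.ind_left hl hb ((dg T 1 ⊔ vd A 1) ⊔ (vd z 1 ⊔ (dg T' 1 ⊔ vd C 1)))
    rw [hc.eB, hc.cT] at h1
    refine I_zero_mono h1 le_sup_left ?_
    rw [← p2.map_sup]
    exact (p2.map_mono (by order)).trans le_sup_left

/-- **the pair of states over two elements of a star** -/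
theorem two (hl : l ≤ 1) (hb : Blk S c f z z3 T T' A C) (hc : Cps D S p1 p2 f z3 T T' C l) :
    Two D (p2.qs c) (fun i => p2.qs (f i)) (p1.map (dg T 1 ⊔ vd A 1) ⊔ p2.map (dg T 1 ⊔ vd A 1))
      (fun i => p1.qs (z i)) (fun i => p2.qs (z i)) (p1.qs T - p2.qs T) (p2.qs T')
      (fun i => p1.qs (A i) - p2.qs (A i)) (fun i => p2.qs (C i)) where
  hc := qs_sign p2 hb.hc
  e := by
    intro i
    have h1 := congrArg p1.qs (hb.e i)
    have h2 := congrArg p2.qs (hb.e i)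
    rw [map_add, map_mul, map_sub, map_mul, map_mul] at h1 h2
    rw [hc.cz, hc.cC, hc.cT'] at h1
    have cc : p1.qs c = p2.qs c := by
      rcases hb.hc with h | h
      · rw [h, map_one, map_one]
      · rw [h, map_neg, map_neg, map_one, map_one]
    rw [cc] at h1
    have h3 : p2.qs (z i) = p2.qs (z3 i) - p2.qs c * (p2.qs T * p2.qs (C i) - p2.qs (A i) * p2.qs T') := by
      rw [h2]; ring
    rw [h3, h1]
    ring
  gX := by
    refine le_trans ?_ (le_sup_right : _ ≤ vd (fun i => p2.qs (f i)) 1 ⊔ _)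
    refine (dg_sub_le _ _ le_rfl).trans (sup_le ?_ ?_)
    · rw [p1.qs_dg]
      exact (p1.map_mono le_sup_left).trans le_sup_left
    · rw [p2.qs_dg]
      exact (p2.map_mono le_sup_left).trans le_sup_right
  pX := by
    refine le_trans ?_ (le_sup_right : _ ≤ vd (fun i => p2.qs (f i)) 1 ⊔ _)
    rw [vd_le]
    intro i
    refine (dg_sub_le _ _ le_rfl).trans (sup_le ?_ ?_)
    · rw [p1.qs_dg]
      exact (p1.map_mono ((dg_le_vd A 1 i).trans le_sup_right)).trans le_sup_left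
    · rw [p2.qs_dg]
      exact (p2.map_mono ((dg_le_vd A 1 i).trans le_sup_right)).trans le_sup_right
  iX := by
    rw [p2.qs_vd, p2.qs_dg, p2.qs_vd, p2.qs_vd, ← p2.map_sup, ← p2.map_sup]
    exact two_iX hl hb hc
  iz := by
    rw [p2.qs_vd, p2.qs_dg, p2.qs_vd, p2.qs_vd, ← p2.map_sup, p2.I_map]
    exact I_zero_mono hb.i1 le_sup_left (by order)
  eh := by
    rw [p1.qs_vd, p2.qs_vd, p2.qs_vd, ← hc.eB, p1.h_map, hc.eB, p2.h_map]
  rT := by
    rw [p2.qs_dg, p2.qs_vd, p2.h_map]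
    exact hb.r2

/-- **(ADD)** for two elements of a star -/
theorem add (hu : UQi S z (vd f 1) ρ) (hρ : 0 < ρ) (hl : l ≤ 1) (hb : Blk S c f z z3 T T' A C)
    (hc : Cps D S p1 p2 f z3 T T' C l) :
    vd (fun i => p1.qs (A i) - p2.qs (A i)) 1 ≤ dg (p1.qs T - p2.qs T) 1 ⊔ p2.map (vd f 1) := by
  have h1 := (two hl hb hc).add (ρ := ρ) ?_ hρ
  · rwa [p2.qs_vd] at h1
  · rw [p2.qs_vd, ← hc.eB]
    exact hu.pull p1

/-- the first state is independent of the two elements and of the carrier -/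
theorem ind_state (hl : l ≤ 1) (hb : Blk S c f z z3 T T' A C) (hc : Cps D S p1 p2 f z3 T T' C l) :
    I (p1.map (vd z 1)) (p1.map (dg T 1 ⊔ vd A 1) ⊔ p2.map (dg T 1 ⊔ vd A 1) ⊔ p2.map (dg T' 1 ⊔ vd C 1))
      (p2.map (vd f 1)) = 0 := by
  have h2 := two hl hb hc
  have h1 := Two.ind1 h2.hc h2.e h2.gX h2.pX h2.iX h2.iz h2.eh
  rwa [p1.qs_vd, p2.qs_dg, p2.qs_vd, p2.qs_vd, ← p2.map_sup] at h1

/-- the carrier is real over the first state and the two elements -/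
theorem real_T' (hl : l ≤ 1) (hb : Blk S c f z z3 T T' A C) (hc : Cps D S p1 p2 f z3 T T' C l) :
    Helper31.EC.h (p2.map (dg T' 1)) (p1.map (vd z 1) ⊔ (p1.map (dg T 1 ⊔ vd A 1) ⊔ p2.map (dg T 1 ⊔ vd A 1) ⊔
      p2.map (vd f 1))) = 1 := by
  obtain ⟨X, hX⟩ : ∃ X, X = p1.map (dg T 1 ⊔ vd A 1) ⊔ p2.map (dg T 1 ⊔ vd A 1) := ⟨_, rfl⟩
  have h1 := hc.ind_state hl hb
  have h2 := hc.two_iX hl hb
  rw [← hX] at h1 h2
  rw [← hX]
  have m1 : I (p1.map (vd z 1)) (p2.map (dg T' 1 ⊔ vd C 1)) (X ⊔ p2.map (vd f 1)) = 0 := (I_decomp h1).2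
  have m2 : I (p2.map (dg T' 1)) X (p2.map (vd f 1)) = 0 :=
    I_zero_mono h2 ((p2.map_mono (by order)).trans le_sup_left) le_sup_left
  have m3 := I_zero_iff_h.mp m2
  have m4 : I (p2.map (dg T' 1)) (p1.map (vd z 1)) (X ⊔ p2.map (vd f 1)) = 0 :=
    ind_symm (I_zero_mono m1 le_sup_left ((p2.map_mono (by order)).trans le_sup_left))
  rw [I_zero_iff_h.mp m4, m3, p2.h_map]
  exact hb.r2

/-- **(LIP)**: two elements of a star in one cell of level `l` -/
theorem lip (hu : UQi S z (vd f 1) ρ) (hρ : 0 < ρ) (hl : l ≤ 1) (hb : Blk S c f z z3 T T' A C)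
    (hc : Cps D S p1 p2 f z3 T T' C l) (i : ν) : p1.qs (A i) - p2.qs (A i) ∈ Id D l := by
  rcases le_or_gt l 0 with h0 | h0
  · exact mem_Id_nonpos h0
  have h2 := two hl hb hc
  have hr := hc.real_T' hl hb
  have key := noiseFK (hu.pull p2) hρ h0 hl le_rfl h0.le (z0 := fun i => p1.qs (z i))
    (s := fun i => - (p2.qs c * (p1.qs (A i) - p2.qs (A i)))) (τ := p2.qs T') ?_ ?_ (mem_Id_nonpos le_rfl) ?_ i
  · rw [sub_zero] at key
    have h3 : (-(p2.qs c)) * (-(p2.qs c * (p1.qs (A i) - p2.qs (A i)))) ∈ Id D l := (Id D l).mul_mem_left _ key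
    have h4 : (-(p2.qs c)) * (-(p2.qs c * (p1.qs (A i) - p2.qs (A i)))) = p1.qs (A i) - p2.qs (A i) := by
      rcases qs_sign p2 hb.hc with h | h
      · rw [h]; ring
      · rw [h]; ring
    rwa [h4] at h3
  · intro j
    have e1 : p2.qs (z j) - (p1.qs (z j) + p2.qs T' * -(p2.qs c * (p1.qs (A j) - p2.qs (A j)))) =
        (p1.qs T - p2.qs T) * (p2.qs c * p2.qs (C j)) := by
      rw [h2.e j]; ring
    rw [e1]
    exact (Id D l).mul_mem_right _ hc.ml
  · rw [p2.qs_vd]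
    refine I_zero_mono (hc.two_iX hl hb) ?_ ?_
    · exact (p2.map_mono ((vd_mono z hl).trans le_sup_left)).trans le_sup_left
    · refine le_trans ?_ le_sup_left
      rw [vd_le]
      intro j
      have d1 : dg (p2.qs c) l ≤ p1.map (dg T 1 ⊔ vd A 1) ⊔ p2.map (dg T 1 ⊔ vd A 1) :=
        (dg_mono _ hl).trans (dg_sign (qs_sign p2 hb.hc) _)
      have d2 : dg (p1.qs (A j)) l ≤ p1.map (dg T 1 ⊔ vd A 1) ⊔ p2.map (dg T 1 ⊔ vd A 1) := by
        rw [p1.qs_dg]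
        exact (p1.map_mono (((dg_mono _ hl).trans (dg_le_vd A 1 j)).trans le_sup_right)).trans le_sup_left
      have d3 : dg (p2.qs (A j)) l ≤ p1.map (dg T 1 ⊔ vd A 1) ⊔ p2.map (dg T 1 ⊔ vd A 1) := by
        rw [p2.qs_dg]
        exact (p2.map_mono (((dg_mono _ hl).trans (dg_le_vd A 1 j)).trans le_sup_right)).trans le_sup_right
      exact (Kn D l hl _).neg_mem ((Kn D l hl _).mul_mem d1 ((Kn D l hl _).sub_mem d2 d3))
  · rw [sub_zero]
    have h5 := h_dg_level (τ := p2.qs T') (y := 0) (r := l) (A := p1.map (vd z 1) ⊔ (p1.map (dg T 1 ⊔ vd A 1) ⊔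
      p2.map (dg T 1 ⊔ vd A 1) ⊔ p2.map (vd f 1))) (by rw [p2.qs_dg, sub_zero]; exact hr) hl
    rw [sub_zero] at h5
    refine h5.trans (h_anti ?_)
    apply sup_le (sup_le ?_ ?_) ?_
    · rw [p1.qs_vd]
      exact (p1.map_mono (vd_mono z hl)).trans le_sup_left
    · rw [vd_le]
      intro j
      have d1 : dg (p2.qs c) l ≤ p1.map (dg T 1 ⊔ vd A 1) ⊔ p2.map (dg T 1 ⊔ vd A 1) :=
        (dg_mono _ hl).trans (dg_sign (qs_sign p2 hb.hc) _)
      have d2 : dg (p1.qs (A j)) l ≤ p1.map (dg T 1 ⊔ vd A 1) ⊔ p2.map (dg T 1 ⊔ vd A 1) := by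
        rw [p1.qs_dg]
        exact (p1.map_mono (((dg_mono _ hl).trans (dg_le_vd A 1 j)).trans le_sup_right)).trans le_sup_left
      have d3 : dg (p2.qs (A j)) l ≤ p1.map (dg T 1 ⊔ vd A 1) ⊔ p2.map (dg T 1 ⊔ vd A 1) := by
        rw [p2.qs_dg]
        exact (p2.map_mono (((dg_mono _ hl).trans (dg_le_vd A 1 j)).trans le_sup_right)).trans le_sup_right
      have d4 : dg (-(p2.qs c * (p1.qs (A j) - p2.qs (A j)))) l ≤ p1.map (dg T 1 ⊔ vd A 1) ⊔
          p2.map (dg T 1 ⊔ vd A 1) :=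
        (Kn D l hl _).neg_mem ((Kn D l hl _).mul_mem d1 ((Kn D l hl _).sub_mem d2 d3))
      exact d4.trans (le_sup_left.trans le_sup_right)
    · exact le_sup_right.trans le_sup_right

/-- the second element is real over the star and the cell -/
theorem real_T2 (hl0 : 0 ≤ l) (hl : l ≤ 1) (hb : Blk S c f z z3 T T' A C) :
    Helper31.EC.h (dg T 1) (lst f z3 T' C ⊔ dg T l) = 1 - l := by
  have h1 : I (dg T 1) (lst f z3 T' C) (vd f 1) = 0 := by
    refine I_zero_mono hb.ind (le_sup_left.trans le_sup_left) ?_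
    unfold lst
    order
  have h2 := I_zero_iff_h.mp h1
  have h3 : lst f z3 T' C ⊔ vd f 1 = lst f z3 T' C := by unfold lst; order
  rw [h3, hb.r1] at h2
  apply le_antisymm
  · exact (h_anti le_sup_right).trans (h_dg_dg T hl)
  · have h4 := Pool.Agent.Helper70.FW.h_real_beyond h2 hl0 (le_refl (1 : ℝ))
    rwa [sup_comm] at h4

/-- **the window count**: the second element is real over the star, the cell and the differences -/
theorem win (hu : UQi S z (vd f 1) ρ) (hρ : 0 < ρ) (hl0 : 0 ≤ l) (hl : l ≤ 1) (hb : Blk S c f z z3 T T' A C)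
    (hc : Cps D S p1 p2 f z3 T T' C l) :
    Helper31.EC.h (p2.map (dg T 1)) (dg (p1.qs T - p2.qs T) 1 ⊔ vd (fun i => p1.qs (A i) - p2.qs (A i)) 1 ⊔
      p2.map (lst f z3 T' C ⊔ dg T l)) = 1 - l := by
  obtain ⟨W, hW⟩ : ∃ W, W = p2.map (lst f z3 T' C ⊔ dg T l) := ⟨_, rfl⟩
  obtain ⟨g, hg⟩ : ∃ g, g = p1.qs T - p2.qs T := ⟨_, rfl⟩
  have hB : p2.map (vd f 1) ≤ W := by
    rw [hW]
    apply p2.map_mono
    unfold lst
    order
  have hW12 : p1.map (lst f z3 T' C ⊔ dg T l) = W := by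
    rw [hW, p1.map_sup, p2.map_sup, hc.eW, hc.cT]
  have h1 := hc.add hu hρ hl hb
  rw [← hg] at h1
  rw [← hW, ← hg]
  have h2 : Helper31.EC.h (p2.map (dg T 1)) W = 1 - l := by
    rw [hW, p2.h_map]
    exact real_T2 hl0 hl hb
  have h3 : Helper31.EC.h (p1.map (dg T 1)) (p2.map (dg T 1) ⊔ W) = 1 - l := by
    have e1 := hc.ci (dg T 1) (dg T 1)
    rw [hW12] at e1
    rw [I_zero_iff_h.mp e1, ← hW12, p1.h_map]
    exact real_T2 hl0 hl hb
  have h4 : Helper31.EC.h (dg g 1) W ≤ 1 - l :=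
    Pool.Agent.Helper96.FLT.h_dg_of_mem hl (by rw [hg]; exact hc.ml) _
  have h5 : Helper31.EC.h (p1.map (dg T 1)) (p2.map (dg T 1) ⊔ W) ≤
      Helper31.EC.h (dg g 1) (p2.map (dg T 1) ⊔ W) := by
    have e1 : p1.map (dg T 1) ≤ dg g 1 ⊔ (p2.map (dg T 1) ⊔ W) := by
      rw [← p1.qs_dg]
      have e2 : p1.qs T = g + p2.qs T := by rw [hg]; ring
      rw [e2]
      refine (dg_add_le _ _ le_rfl).trans (sup_le le_sup_left ?_)
      rw [p2.qs_dg]
      exact le_sup_left.trans le_sup_right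
    refine (h_mono (A' := dg g 1 ⊔ (p2.map (dg T 1) ⊔ W)) e1).trans (le_of_eq ?_)
    exact h_sup_right_of_le le_rfl
  have h6 := h_chain (p2.map (dg T 1)) (dg g 1) W
  have h7 := h_chain (dg g 1) (p2.map (dg T 1)) W
  rw [sup_comm (dg g 1)] at h7
  have h8 : Helper31.EC.h (p2.map (dg T 1)) (dg g 1 ⊔ vd (fun i => p1.qs (A i) - p2.qs (A i)) 1 ⊔ W) =
      Helper31.EC.h (p2.map (dg T 1)) (dg g 1 ⊔ W) := by
    have e1 : dg g 1 ⊔ vd (fun i => p1.qs (A i) - p2.qs (A i)) 1 ⊔ W = dg g 1 ⊔ W :=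
      le_antisymm (by order) (by order)
    rw [e1]
  rw [h8]
  have h9 : Helper31.EC.h (p2.map (dg T 1)) (dg g 1 ⊔ W) ≤ 1 - l := (h_anti le_sup_right).trans h2.le
  linarith

end Cps

end

end Pool.Agent.Helper16.VW
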